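import Mathlib
import Pool.Agent.Work.MP_8b6acb_co.Defs
import Pool.Agent.Work.MP_8b6acb_full.P01
import Pool.Agent.Work.MP_8b6acb_full.P21
import Pool.Agent.Work.MP_8b6acb_full.P24

/-! The full number of edge-disjoint Lehman-Ron path systems in the directed hypercube. -/

namespace Pool.Agent.Results.MP_8b6acb_co.FullLehmanRon

open _root_.MP_8b6acb_co

/-- For every `d`, all layers `i < j` of the directed hypercube `{0,1}^d` and every matched pair
`(S, T)` with `S` in layer `i` and `T` in layer `j`, there are `j - i` LR solutions whose union is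
edge-disjoint. -/
theorem result (d i j : ℕ) (hij : i < j) (S T : Finset (Vtx d))
    (hS : ∀ s ∈ S, wt s = i) (hT : ∀ t ∈ T, wt t = j) (hST : Matched S T) :
    HasEdgeDisjointLR (j - i) S T :=
  R5.K.all_systems (fun d _ hl => R5.J0.TIS (Fin d) hl le_rfl) hij
    (fun h S T hS hT hST => one_system S T hS (by subst h; exact hT) hST) S T hS hT hST

end Pool.Agent.Results.MP_8b6acb_co.FullLehmanRon
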